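import Mathlib

set_option autoImplicit false

/-!
# Families of quasi-Banach function spaces on cubes, and the spaces `BMO_X` and `BMO*_X`

A quasi-Banach function space `X_Q` is described by its quasi-norm, with the value `∞` outside the
space.
-/

namespace Pool.Agent.R884.BMOStar

open MeasureTheory Set Filter Topology
open scoped ENNReal NNReal

/-- A cube of `ℝ^n` with sides parallel to the axes, given by its lower corner and its side. -/
structure Cube (n : ℕ) where
  /-- the corner with the smallest coordinates -/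
  corner : Fin n → ℝ
  /-- the side length -/
  side : ℝ
  side_pos : 0 < side

variable {n : ℕ}

/-- The set of points of a cube. -/
def Cube.set (Q : Cube n) : Set (Fin n → ℝ) := Icc Q.corner (fun i => Q.corner i + Q.side)

/-- Lebesgue measure restricted to a cube. -/
noncomputable def Cube.leb (Q : Cube n) : Measure (Fin n → ℝ) := volume.restrict Q.set

/-- The mean value of `f` over the cube `Q`. -/
noncomputable def Cube.mean (Q : Cube n) (f : (Fin n → ℝ) → ℝ) : ℝ := ⨍ x in Q.set, f x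

/-- `N` is the quasi-norm (with value `∞` outside the space) of a quasi-Banach function space over
the cube `Q`: the space consists of the (classes of) measurable functions `f` on `Q` with
`N f < ∞`. -/
structure IsQuasiBanachFunctionNorm (Q : Cube n) (N : ((Fin n → ℝ) → ℝ) → ℝ≥0∞) : Prop where
  /-- (i) the lattice property; in particular `N f` depends only on the class of `f` on `Q` -/
  mono : ∀ f g, AEMeasurable f Q.leb → AEMeasurable g Q.leb →
    (∀ᵐ x ∂Q.leb, |f x| ≤ |g x|) → N f ≤ N g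
  /-- definiteness -/
  eq_zero : ∀ f, AEMeasurable f Q.leb → (N f = 0 ↔ ∀ᵐ x ∂Q.leb, f x = 0)
  /-- homogeneity -/
  smul : ∀ (c : ℝ) (f), AEMeasurable f Q.leb →
    N (fun x => c * f x) = ENNReal.ofReal |c| * N f
  /-- the quasi-triangle inequality -/
  add : ∃ K : ℝ≥0, ∀ f g, AEMeasurable f Q.leb → AEMeasurable g Q.leb →
    N (fun x => f x + g x) ≤ K * (N f + N g)
  /-- completeness -/
  complete : ∀ u : ℕ → (Fin n → ℝ) → ℝ, (∀ k, AEMeasurable (u k) Q.leb ∧ N (u k) < ∞) →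
    (∀ ε : ℝ≥0∞, 0 < ε → ∃ M, ∀ i ≥ M, ∀ j ≥ M, N (fun x => u i x - u j x) ≤ ε) →
    ∃ f, AEMeasurable f Q.leb ∧ N f < ∞ ∧
      Tendsto (fun k => N (fun x => u k x - f x)) atTop (𝓝 0)
  /-- (ii) the space contains an almost everywhere positive function -/
  pos : ∃ f, AEMeasurable f Q.leb ∧ N f < ∞ ∧ ∀ᵐ x ∂Q.leb, 0 < f x
  /-- (iii) the Fatou property -/
  fatou : ∀ u : ℕ → (Fin n → ℝ) → ℝ, (∀ k, AEMeasurable (u k) Q.leb) →
    (∀ᵐ x ∂Q.leb, ∀ k, 0 ≤ u k x ∧ u k x ≤ u (k + 1) x) → (⨆ k, N (u k)) < ∞ →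
    ∃ f, AEMeasurable f Q.leb ∧ (∀ᵐ x ∂Q.leb, Tendsto (fun k => u k x) atTop (𝓝 (f x))) ∧
      N f = ⨆ k, N (u k)

/-- A family of spaces, one for each cube, given by their quasi-norms. -/
abbrev Family (n : ℕ) := Cube n → ((Fin n → ℝ) → ℝ) → ℝ≥0∞

/-- The family is normalized: the quasi-norms of the functions `χ_Q` (on `Q` this is the constant
function `1`) are comparable to `1`. -/
def IsNormalized (X : Family n) : Prop :=
  ∃ c C : ℝ≥0, 0 < c ∧ ∀ Q, (c : ℝ≥0∞) ≤ X Q (fun _ => 1) ∧ X Q (fun _ => 1) ≤ C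

/-- The norm of `BMO_X`. -/
noncomputable def bmoX (X : Family n) (f : (Fin n → ℝ) → ℝ) : ℝ≥0∞ :=
  ⨆ Q : Cube n, X Q (fun x => f x - Q.mean f)

/-- The norm of `BMO*_X`. -/
noncomputable def bmoStarX (X : Family n) (f : (Fin n → ℝ) → ℝ) : ℝ≥0∞ :=
  ⨆ Q : Cube n, ⨅ c : ℝ, X Q (fun x => f x - c)

/-- The normalized `L¹` norms `(1/|Q|) ∫_Q |g|`. -/
noncomputable def L1 : Family n := fun Q g => (volume Q.set)⁻¹ * ∫⁻ x in Q.set, ‖g x‖ₑ

/-- The space `BMO_X`. -/
def BMOX (X : Family n) : Set ((Fin n → ℝ) → ℝ) := {f | LocallyIntegrable f ∧ bmoX X f < ∞}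

/-- The space `BMO*_X`. -/
def BMOStarX (X : Family n) : Set ((Fin n → ℝ) → ℝ) := {f | AEMeasurable f ∧ bmoStarX X f < ∞}

/-- The space `BMO` of John and Nirenberg, with the norm `bmoX L1`. -/
def BMO (n : ℕ) : Set ((Fin n → ℝ) → ℝ) := BMOX L1

/-- Continuous embedding of function spaces. -/
def Embeds (A B : Set ((Fin n → ℝ) → ℝ)) (normA normB : ((Fin n → ℝ) → ℝ) → ℝ≥0∞) : Prop :=
  A ⊆ B ∧ ∃ C : ℝ≥0, ∀ f ∈ A, normB f ≤ C * normA f

end Pool.Agent.R884.BMOStar
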