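import Pool.Agent.R884.BMOStar.Defs

set_option autoImplicit false

/-! A family with one peak per even integer. -/

namespace Pool.Agent.R884.BMOStar

open MeasureTheory Set Filter Topology
open scoped ENNReal NNReal

variable {n : ℕ}

/-! ### Weighted `L¹` norms -/

theorem isQBFN_of {Q : Cube n} {ν : Measure (Fin n → ℝ)} [IsFiniteMeasure ν] (h1 : ν ≪ Q.leb)
    (h2 : Q.leb ≪ ν) : IsQuasiBanachFunctionNorm Q (fun g => eLpNorm g 1 ν) where
  mono f g _ _ h := by
    refine eLpNorm_mono_ae (h1.ae_le ?_)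
    filter_upwards [h] with x hx
    simpa [Real.norm_eq_abs] using hx
  eq_zero f hf := by
    rw [eLpNorm_eq_zero_iff (hf.mono_ac h1).aestronglyMeasurable one_ne_zero]
    constructor
    · intro h
      exact h2.ae_le h
    · intro h
      exact h1.ae_le h
  smul c f _ := by
    have := eLpNorm_const_smul c f 1 ν
    rw [show (fun x => c * f x) = c • f from rfl, this, ← Real.norm_eq_abs, ofReal_norm]
  add := by
    refine ⟨1, fun f g hf hg => ?_⟩
    rw [ENNReal.coe_one, one_mul]
    exact eLpNorm_add_le (hf.mono_ac h1).aestronglyMeasurable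
      (hg.mono_ac h1).aestronglyMeasurable le_rfl
  complete u hu hc := by
    have hm : ∀ k, MemLp (u k) 1 ν := fun k =>
      ⟨((hu k).1.mono_ac h1).aestronglyMeasurable, (hu k).2⟩
    have hcau : CauchySeq (fun k => (hm k).toLp (u k)) := by
      rw [EMetric.cauchySeq_iff']
      intro ε hε
      obtain ⟨δ, hδ0, hδ⟩ := exists_between hε
      obtain ⟨M, hM⟩ := hc δ hδ0
      refine ⟨M, fun i hi => ?_⟩
      rw [Lp.edist_toLp_toLp]
      exact (hM i hi M le_rfl).trans_lt hδ
    obtain ⟨g, hg⟩ := cauchySeq_tendsto_of_complete hcau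
    have hgm : AEMeasurable (g : (Fin n → ℝ) → ℝ) Q.leb :=
      ((Lp.stronglyMeasurable g).measurable).aemeasurable
    refine ⟨g, hgm, (Lp.memLp g).2, ?_⟩
    have := (Lp.tendsto_Lp_iff_tendsto_eLpNorm' _ _).1 hg
    refine this.congr fun k => ?_
    refine eLpNorm_congr_ae ?_
    filter_upwards [(hm k).coeFn_toLp] with x hx
    simp only [Pi.sub_apply, hx]
  pos := by
    refine ⟨fun _ => 1, aemeasurable_const, ?_, Eventually.of_forall fun _ => one_pos⟩
    exact (memLp_const 1).2
  fatou u hu hmon hsup := by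
    have hmon' : ∀ᵐ x ∂ν, ∀ k, 0 ≤ u k x ∧ u k x ≤ u (k + 1) x := h1.ae_le hmon
    have hnorm : ∀ k, eLpNorm (u k) 1 ν = ∫⁻ x, ENNReal.ofReal (u k x) ∂ν := by
      intro k
      rw [eLpNorm_one_eq_lintegral_enorm]
      refine lintegral_congr_ae ?_
      filter_upwards [hmon'] with x hx
      rw [Real.enorm_eq_ofReal (hx k).1]
    have hmono : ∀ᵐ x ∂ν, Monotone fun k => ENNReal.ofReal (u k x) := by
      filter_upwards [hmon'] with x hx
      exact monotone_nat_of_le_succ fun k => ENNReal.ofReal_le_ofReal (hx k).2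
    have hint : ∫⁻ x, (⨆ k, ENNReal.ofReal (u k x)) ∂ν = ⨆ k, eLpNorm (u k) 1 ν := by
      rw [lintegral_iSup' (fun k => ((hu k).mono_ac h1).ennreal_ofReal) hmono]
      simp_rw [hnorm]
    have hmeas : AEMeasurable (fun x => ⨆ k, ENNReal.ofReal (u k x)) Q.leb :=
      AEMeasurable.iSup fun k => (hu k).ennreal_ofReal
    have hfin : ∀ᵐ x ∂ν, (⨆ k, ENNReal.ofReal (u k x)) < ∞ := by
      refine ae_lt_top' (hmeas.mono_ac h1) ?_
      rw [hint]; exact hsup.ne
    have hlim : ∀ x, (∀ k, 0 ≤ u k x ∧ u k x ≤ u (k + 1) x) →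
        (⨆ k, ENNReal.ofReal (u k x)) < ∞ →
        Tendsto (fun k => u k x) atTop (𝓝 (⨆ k, ENNReal.ofReal (u k x)).toReal) := by
      intro x hx hx2
      have h3 : Tendsto (fun k => ENNReal.ofReal (u k x)) atTop
          (𝓝 (⨆ k, ENNReal.ofReal (u k x))) :=
        tendsto_atTop_iSup (monotone_nat_of_le_succ fun k => ENNReal.ofReal_le_ofReal (hx k).2)
      have h4 := (ENNReal.tendsto_toReal hx2.ne).comp h3
      refine h4.congr fun k => ?_
      simp only [Function.comp_apply]
      rw [ENNReal.toReal_ofReal (hx k).1]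
    refine ⟨fun x => (⨆ k, ENNReal.ofReal (u k x)).toReal, hmeas.ennreal_toReal, ?_, ?_⟩
    · filter_upwards [hmon, h2.ae_le hfin] with x hx hx2
      exact hlim x hx hx2
    · rw [← hint, eLpNorm_one_eq_lintegral_enorm]
      refine lintegral_congr_ae ?_
      filter_upwards [hfin] with x hx
      rw [Real.enorm_eq_ofReal ENNReal.toReal_nonneg, ENNReal.ofReal_toReal hx.ne]

/-! ### One-dimensional estimates -/

/-- the function of one variable with the peaks -/
noncomputable def saw (t : ℝ) : ℝ :=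
  max 0 (min ((⌊t / 2⌋ : ℤ) : ℝ) (-Real.log (t - 2 * ((⌊t / 2⌋ : ℤ) : ℝ))))

theorem measurable_saw : Measurable saw := by
  have h1 : Measurable fun t : ℝ => ((⌊t / 2⌋ : ℤ) : ℝ) :=
    measurable_from_top.comp (Int.measurable_floor.comp (measurable_id.div_const 2))
  exact measurable_const.max (h1.min
    (Real.measurable_log.comp (measurable_id.sub (h1.const_mul 2))).neg)

/-- one peak of height `k` at `0` -/
noncomputable def peak (k : ℤ) (u : ℝ) : ℝ := max 0 (min (k : ℝ) (-Real.log u))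

theorem saw_eq {k : ℤ} {t : ℝ} (h1 : 2 * (k : ℝ) ≤ t) (h2 : t < 2 * k + 2) :
    saw t = peak k (t - 2 * k) := by
  have : ⌊t / 2⌋ = k := by
    rw [Int.floor_eq_iff]
    constructor <;> linarith
  unfold saw peak
  rw [this]

theorem peak_nonneg (k : ℤ) (u : ℝ) : 0 ≤ peak k u := le_max_left _ _

theorem peak_le {k : ℤ} (hk : 0 ≤ k) (u : ℝ) : peak k u ≤ k :=
  max_le (by exact_mod_cast hk) (min_le_left _ _)

theorem peak_eq_zero {k : ℤ} {u : ℝ} (h : k ≤ 0 ∨ 1 ≤ u) : peak k u = 0 := by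
  unfold peak
  apply max_eq_left
  rcases h with h | h
  · exact (min_le_left _ _).trans (by exact_mod_cast h)
  · exact (min_le_right _ _).trans (by have := Real.log_nonneg h; linarith)

theorem peak_eq {k : ℤ} (hk : 0 ≤ k) {u : ℝ} (h0 : 0 < u) (h : u ≤ Real.exp (-k)) :
    peak k u = k := by
  unfold peak
  have h1 : Real.log u ≤ -k := by
    rw [← Real.log_exp (-(k : ℝ))]
    exact Real.log_le_log h0 h
  rw [min_eq_left (by linarith)]
  exact max_eq_right (by exact_mod_cast hk)

theorem abs_peak_sub_le (k : ℤ) {u v : ℝ} (hu : 0 < u) (huv : u ≤ v) :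
    |peak k u - peak k v| ≤ Real.log v - Real.log u := by
  have h1 : Real.log u ≤ Real.log v := Real.log_le_log hu huv
  have h2 : |peak k u - peak k v| ≤ |(-Real.log u) - (-Real.log v)| := by
    unfold peak
    refine (abs_max_sub_max_le_max _ _ _ _).trans ?_
    rw [sub_self, abs_zero]
    refine max_le (abs_nonneg _) ?_
    refine (abs_min_sub_min_le_max _ _ _ _).trans ?_
    rw [sub_self, abs_zero]
    exact max_le (abs_nonneg _) le_rfl
  refine h2.trans ?_
  rw [abs_of_nonneg (by linarith)]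
  linarith

/-- the oscillation of the logarithm on one side of its pole -/
theorem lintegral_log_le {s b : ℝ} (hs : 0 ≤ s) (hb : s < b) :
    ∫⁻ u in Ioc s b, ENNReal.ofReal (Real.log b - Real.log u) ≤ ENNReal.ofReal (b - s) := by
  have hint : IntervalIntegrable (fun u => Real.log b - Real.log u) volume s b :=
    intervalIntegrable_const.sub intervalIntegral.intervalIntegrable_log'
  have hint2 : IntegrableOn (fun u => Real.log b - Real.log u) (Ioc s b) :=
    (intervalIntegrable_iff_integrableOn_Ioc_of_le hb.le).1 hint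
  rw [← ofReal_integral_eq_lintegral_ofReal hint2]
  · apply ENNReal.ofReal_le_ofReal
    rw [← intervalIntegral.integral_of_le hb.le, intervalIntegral.integral_sub
      intervalIntegrable_const intervalIntegral.intervalIntegrable_log', integral_log]
    simp only [intervalIntegral.integral_const, smul_eq_mul]
    have h1 : s * Real.log s ≤ s * Real.log b := by
      rcases hs.eq_or_lt with h | h
      · rw [← h]; simp
      · exact mul_le_mul_of_nonneg_left (Real.log_le_log h hb.le) hs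
    nlinarith
  · rw [EventuallyLE, ae_restrict_iff' measurableSet_Ioc]
    refine Eventually.of_forall fun u hu => ?_
    have : Real.log u ≤ Real.log b := Real.log_le_log (hs.trans_lt hu.1) hu.2
    simp only [Pi.zero_apply]
    linarith

/-- the mean oscillation of a peak on one side of its pole -/
theorem lintegral_peak_le (k : ℤ) {s b : ℝ} (hs : 0 ≤ s) (hb : s < b) :
    ∫⁻ u in Ioc s b, ‖peak k u - peak k b‖ₑ ≤ ENNReal.ofReal (b - s) := by
  refine le_trans ?_ (lintegral_log_le hs hb)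
  refine setLIntegral_mono' measurableSet_Ioc fun u hu => ?_
  rw [← ofReal_norm, Real.norm_eq_abs]
  exact ENNReal.ofReal_le_ofReal (abs_peak_sub_le k (hs.trans_lt hu.1) hu.2)

/-- the same for the function `saw` -/
theorem lintegral_saw_le (k : ℤ) {s b : ℝ} (hs : 2 * (k : ℝ) ≤ s) (hb : s < b)
    (hb2 : b ≤ 2 * k + 2) :
    ∫⁻ t in Ioc s b, ‖saw t - peak k (b - 2 * k)‖ₑ ≤ ENNReal.ofReal (b - s) := by
  have h1 := lintegral_peak_le k (s := s - 2 * k) (b := b - 2 * k) (by linarith) (by linarith)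
  have h2 : ∫⁻ t in Ioc s b, ‖saw t - peak k (b - 2 * k)‖ₑ =
      ∫⁻ t in Ioc s b, ‖peak k (t - 2 * k) - peak k (b - 2 * k)‖ₑ := by
    have hae : ∀ᵐ t ∂(volume.restrict (Ioc s b)), t ≠ b := by
      have : ∀ᵐ t : ℝ ∂volume, t ≠ b := by
        rw [ae_iff]; simp
      exact ae_restrict_of_ae this
    refine lintegral_congr_ae ?_
    filter_upwards [ae_restrict_mem measurableSet_Ioc, hae] with t ht hne
    rw [saw_eq (by linarith [ht.1]) (lt_of_lt_of_le (lt_of_le_of_ne ht.2 hne) hb2)]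
  rw [h2]
  have h3 : ∫⁻ t in Ioc s b, ‖peak k (t - 2 * k) - peak k (b - 2 * k)‖ₑ =
      ∫⁻ u in Ioc (s - 2 * k) (b - 2 * k), ‖peak k u - peak k (b - 2 * k)‖ₑ := by
    have hmp : MeasurePreserving (fun t : ℝ => t - 2 * (k : ℝ)) volume volume := by
      simpa [sub_eq_add_neg] using measurePreserving_add_right (volume : Measure ℝ) (-(2 * (k : ℝ)))
    have hemb : MeasurableEmbedding (fun t : ℝ => t - 2 * (k : ℝ)) := by
      simpa [sub_eq_add_neg] using measurableEmbedding_addRight (-(2 * (k : ℝ)))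
    have := hmp.setLIntegral_comp_preimage_emb hemb
      (fun u => ‖peak k u - peak k (b - 2 * k)‖ₑ) (Ioc (s - 2 * k) (b - 2 * k))
    rw [← this]
    congr 2
    ext t
    simp
  rw [h3]
  refine h1.trans (ENNReal.ofReal_le_ofReal (by linarith))

theorem lintegral_saw_period (j : ℤ) (N : ℕ) :
    ∫⁻ t in Ioc (2 * (j : ℝ)) (2 * j + 2 * N), ‖saw t‖ₑ ≤ ENNReal.ofReal (2 * N) := by
  induction N with
  | zero => simp
  | succ N ih =>
    have h1 : Ioc (2 * (j : ℝ)) (2 * j + 2 * ((N + 1 : ℕ) : ℝ)) =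
        Ioc (2 * (j : ℝ)) (2 * j + 2 * N) ∪ Ioc (2 * (j : ℝ) + 2 * N) (2 * j + 2 * N + 2) := by
      rw [Ioc_union_Ioc_eq_Ioc (by linarith [(Nat.cast_nonneg N : (0 : ℝ) ≤ N)]) (by linarith)]
      congr 1
      push_cast
      ring
    rw [h1]
    refine (lintegral_union_le _ _ _).trans ?_
    have h2 := lintegral_saw_le (j + N) (s := 2 * (j : ℝ) + 2 * N) (b := 2 * j + 2 * N + 2)
      (by push_cast; linarith) (by linarith) (by push_cast; linarith)
    rw [peak_eq_zero (Or.inr (by push_cast; linarith))] at h2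
    simp only [sub_zero] at h2
    refine (add_le_add ih h2).trans ?_
    rw [← ENNReal.ofReal_add (by positivity) (by linarith)]
    apply ENNReal.ofReal_le_ofReal
    push_cast
    linarith

theorem lintegral_saw_long (a : ℝ) {l : ℝ} (hl : 1 ≤ l) :
    ∫⁻ t in Ioc a (a + l), ‖saw t‖ₑ ≤ ENNReal.ofReal (5 * l) := by
  have h1 := lintegral_saw_period ⌊a / 2⌋ (⌈l / 2⌉₊ + 1)
  have h2 : (⌊a / 2⌋ : ℝ) ≤ a / 2 := Int.floor_le _
  have h3 : a / 2 < (⌊a / 2⌋ : ℝ) + 1 := Int.lt_floor_add_one _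
  have h4 : l / 2 ≤ (⌈l / 2⌉₊ : ℝ) := Nat.le_ceil _
  have h5 : (⌈l / 2⌉₊ : ℝ) < l / 2 + 1 := Nat.ceil_lt_add_one (by linarith)
  push_cast at h1
  refine (lintegral_mono_set (Ioc_subset_Ioc (by linarith) (by linarith))).trans (h1.trans ?_)
  apply ENNReal.ofReal_le_ofReal
  linarith

/-- the index of the last peak before the right end of `[a, a + l]` -/
noncomputable def wk (a l : ℝ) : ℤ := ⌈(a + l) / 2⌉ - 1

theorem wk_spec (a l : ℝ) : 2 * (wk a l : ℝ) < a + l ∧ a + l ≤ 2 * wk a l + 2 := by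
  have h1 := Int.le_ceil ((a + l) / 2)
  have h2 := Int.ceil_lt_add_one ((a + l) / 2)
  unfold wk
  push_cast
  constructor <;> linarith

/-- the weights -/
noncomputable def wt (a l t : ℝ) : ℝ≥0∞ :=
  if l < 1 ∧ 1 ≤ wk a l ∧ a < 2 * wk a l then
    (if 2 * wk a l - a ≤ a + l - 2 * wk a l then (if 2 * (wk a l : ℝ) < t then 1 else 0)
      else (if t < 2 * (wk a l : ℝ) then 1 else 0)) + ENNReal.ofReal (1 / wk a l)
  else 1

theorem measurable_wt (a l : ℝ) : Measurable (wt a l) := by
  unfold wt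
  by_cases h : l < 1 ∧ 1 ≤ wk a l ∧ a < 2 * wk a l
  · simp only [if_pos h]
    refine Measurable.add ?_ measurable_const
    by_cases h2 : 2 * wk a l - a ≤ a + l - 2 * wk a l
    · simp only [if_pos h2]
      exact Measurable.ite (measurableSet_lt measurable_const measurable_id) measurable_const
        measurable_const
    · simp only [if_neg h2]
      exact Measurable.ite (measurableSet_lt measurable_id measurable_const) measurable_const
        measurable_const
  · simp only [if_neg h]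
    exact measurable_const

theorem wt_pos (a l t : ℝ) : wt a l t ≠ 0 := by
  unfold wt
  by_cases h : l < 1 ∧ 1 ≤ wk a l ∧ a < 2 * wk a l
  · rw [if_pos h]
    have : 0 < ENNReal.ofReal (1 / (wk a l : ℝ)) := by
      rw [ENNReal.ofReal_pos]
      have : (0 : ℝ) < wk a l := by exact_mod_cast h.2.1
      positivity
    exact fun h0 => this.ne' (add_eq_zero.1 h0).2
  · rw [if_neg h]
    exact one_ne_zero

theorem wt_le (a l t : ℝ) : wt a l t ≤ 2 := by
  unfold wt
  by_cases h : l < 1 ∧ 1 ≤ wk a l ∧ a < 2 * wk a l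
  · rw [if_pos h, show (2 : ℝ≥0∞) = 1 + 1 from one_add_one_eq_two.symm]
    apply add_le_add
    · split_ifs <;> simp
    · rw [ENNReal.ofReal_le_one]
      have : (1 : ℝ) ≤ wk a l := by exact_mod_cast h.2.1
      exact div_le_one_of_le₀ this (by linarith)
  · rw [if_neg h]
    exact one_le_two

theorem le_lintegral_wt (a : ℝ) {l : ℝ} (hl : 0 < l) :
    ENNReal.ofReal (l / 2) ≤ ∫⁻ t in Ioc a (a + l), wt a l t := by
  obtain ⟨h1, h2⟩ := wk_spec a l
  by_cases h : l < 1 ∧ 1 ≤ wk a l ∧ a < 2 * wk a l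
  · by_cases h3 : 2 * wk a l - a ≤ a + l - 2 * wk a l
    · calc ENNReal.ofReal (l / 2) ≤ ENNReal.ofReal (a + l - 2 * wk a l) :=
            ENNReal.ofReal_le_ofReal (by linarith)
        _ = ∫⁻ t in Ioc (2 * (wk a l : ℝ)) (a + l), 1 := by simp
        _ ≤ ∫⁻ t in Ioc (2 * (wk a l : ℝ)) (a + l), wt a l t := by
            refine setLIntegral_mono' measurableSet_Ioc fun t ht => ?_
            unfold wt
            rw [if_pos h, if_pos h3, if_pos ht.1]
            exact le_self_add
        _ ≤ _ := lintegral_mono_set (Ioc_subset_Ioc h.2.2.le le_rfl)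
    · calc ENNReal.ofReal (l / 2) ≤ ENNReal.ofReal (2 * wk a l - a) :=
            ENNReal.ofReal_le_ofReal (by linarith)
        _ = ∫⁻ t in Ioo a (2 * (wk a l : ℝ)), 1 := by simp
        _ ≤ ∫⁻ t in Ioo a (2 * (wk a l : ℝ)), wt a l t := by
            refine setLIntegral_mono' measurableSet_Ioo fun t ht => ?_
            unfold wt
            rw [if_pos h, if_neg h3, if_pos ht.2]
            exact le_self_add
        _ ≤ ∫⁻ t in Ioc a (a + l), wt a l t :=
            lintegral_mono_set (Ioo_subset_Ioc_self.trans (Ioc_subset_Ioc le_rfl h1.le))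
  · have h4 : ∀ t, wt a l t = 1 := fun t => by unfold wt; rw [if_neg h]
    simp only [h4, lintegral_const, one_mul, Measure.restrict_apply MeasurableSet.univ, univ_inter,
      Real.volume_Ioc]
    exact ENNReal.ofReal_le_ofReal (by linarith)

theorem exists_lintegral_le (a : ℝ) {l : ℝ} (hl : 0 < l) :
    ∃ c : ℝ, ∫⁻ t in Ioc a (a + l), wt a l t * ‖saw t - c‖ₑ ≤ ENNReal.ofReal (5 * l) := by
  obtain ⟨h1, h2⟩ := wk_spec a l
  by_cases hl1 : l < 1
  swap
  · refine ⟨0, ?_⟩
    have h4 : ∀ t, wt a l t = 1 := fun t => by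
      unfold wt; rw [if_neg (fun h => hl1 h.1)]
    simp only [h4, one_mul, sub_zero]
    exact lintegral_saw_long a (not_lt.1 hl1)
  by_cases ha : a < 2 * wk a l
  swap
  · refine ⟨peak (wk a l) (a + l - 2 * wk a l), ?_⟩
    have h4 : ∀ t, wt a l t = 1 := fun t => by
      unfold wt; rw [if_neg (fun h => ha h.2.2)]
    simp only [h4, one_mul]
    refine (lintegral_saw_le (wk a l) (not_lt.1 ha) (by linarith) h2).trans ?_
    exact ENNReal.ofReal_le_ofReal (by linarith)
  by_cases hk : 1 ≤ wk a l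
  swap
  · refine ⟨0, ?_⟩
    have hk' : (wk a l : ℝ) ≤ 0 := by exact_mod_cast (by omega : wk a l ≤ 0)
    have : ∫⁻ t in Ioc a (a + l), wt a l t * ‖saw t - 0‖ₑ = ∫⁻ t in Ioc a (a + l), 0 := by
      refine setLIntegral_congr_fun measurableSet_Ioc fun t ht => ?_
      have h5 : ⌊t / 2⌋ ≤ 0 := by
        have : ⌊t / 2⌋ < 1 := by
          rw [Int.floor_lt]
          push_cast
          linarith [ht.2]
        omega
      have h6 : saw t = 0 := peak_eq_zero (k := ⌊t / 2⌋) (Or.inl h5)
      simp only [h6, sub_zero, enorm_zero, mul_zero]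
    rw [this]
    simp
  have hkR : (1 : ℝ) ≤ wk a l := by exact_mod_cast hk
  have hk0 : 0 ≤ wk a l := by omega
  have hcond : l < 1 ∧ 1 ≤ wk a l ∧ a < 2 * wk a l := ⟨hl1, hk, ha⟩
  have hleft : ∀ t, a < t → t < 2 * wk a l → saw t = 0 := by
    intro t ht1 ht2
    rw [saw_eq (k := wk a l - 1) (by push_cast; linarith) (by push_cast; linarith)]
    exact peak_eq_zero (Or.inr (by push_cast; linarith))
  have hright : ∀ t, 2 * (wk a l : ℝ) ≤ t → t ≤ a + l → saw t = peak (wk a l) (t - 2 * wk a l) := by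
    intro t ht1 ht2
    exact saw_eq ht1 (by linarith)
  have hbd : ∀ t, a < t → t ≤ a + l → 0 ≤ saw t ∧ saw t ≤ wk a l := by
    intro t ht1 ht2
    rcases lt_or_ge t (2 * (wk a l : ℝ)) with h | h
    · rw [hleft t ht1 h]
      exact ⟨le_rfl, by linarith⟩
    · rw [hright t h ht2]
      exact ⟨peak_nonneg _ _, peak_le hk0 _⟩
  have hsmall : ∀ y : ℝ, |y| ≤ wk a l → ENNReal.ofReal (1 / (wk a l : ℝ)) * ‖y‖ₑ ≤ 1 := by
    intro y hy
    rw [← ofReal_norm, Real.norm_eq_abs, ← ENNReal.ofReal_mul (by positivity),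
      ENNReal.ofReal_le_one, one_div_mul_eq_div]
    exact div_le_one_of_le₀ hy (by linarith)
  by_cases h3 : 2 * wk a l - a ≤ a + l - 2 * wk a l
  · refine ⟨peak (wk a l) (a + l - 2 * wk a l), ?_⟩
    set c := peak (wk a l) (a + l - 2 * wk a l) with hc
    have hc0 : 0 ≤ c := peak_nonneg _ _
    have hck : c ≤ wk a l := peak_le hk0 _
    calc ∫⁻ t in Ioc a (a + l), wt a l t * ‖saw t - c‖ₑ
        ≤ ∫⁻ t in Ioc a (a + l), ((Ioc (2 * (wk a l : ℝ)) (a + l)).indicator
            (fun t => ‖saw t - c‖ₑ) t + 1) := by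
          refine setLIntegral_mono' measurableSet_Ioc fun t ht => ?_
          unfold wt
          rw [if_pos hcond, if_pos h3, add_mul]
          obtain ⟨h5, h6⟩ := hbd t ht.1 ht.2
          refine add_le_add ?_ (hsmall _ (abs_le.2 ⟨by linarith, by linarith⟩))
          by_cases h7 : 2 * (wk a l : ℝ) < t
          · rw [if_pos h7, one_mul, indicator_of_mem (show t ∈ Ioc (2 * (wk a l : ℝ)) (a + l)
              from ⟨h7, ht.2⟩)]
          · rw [if_neg h7, zero_mul]
            positivity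
      _ = (∫⁻ t in Ioc (2 * (wk a l : ℝ)) (a + l), ‖saw t - c‖ₑ) + ENNReal.ofReal l := by
          rw [lintegral_add_right _ measurable_const, lintegral_indicator measurableSet_Ioc,
            Measure.restrict_restrict measurableSet_Ioc,
            inter_eq_self_of_subset_left (Ioc_subset_Ioc ha.le le_rfl)]
          congr 1
          simp
      _ ≤ ENNReal.ofReal (a + l - 2 * wk a l) + ENNReal.ofReal l := by
          exact add_le_add (lintegral_saw_le (wk a l) le_rfl h1 h2) le_rfl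
      _ ≤ ENNReal.ofReal (5 * l) := by
          rw [← ENNReal.ofReal_add (by linarith) hl.le]
          exact ENNReal.ofReal_le_ofReal (by linarith)
  · refine ⟨0, ?_⟩
    calc ∫⁻ t in Ioc a (a + l), wt a l t * ‖saw t - 0‖ₑ
        ≤ ∫⁻ t in Ioc a (a + l), 1 := by
          refine setLIntegral_mono' measurableSet_Ioc fun t ht => ?_
          unfold wt
          rw [if_pos hcond, if_neg h3, sub_zero]
          obtain ⟨h5, h6⟩ := hbd t ht.1 ht.2
          by_cases h7 : t < 2 * (wk a l : ℝ)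
          · rw [hleft t ht.1 h7]
            simp
          · rw [if_neg h7, zero_add]
            exact hsmall _ (abs_le.2 ⟨by linarith, h6⟩)
      _ = ENNReal.ofReal l := by simp
      _ ≤ ENNReal.ofReal (5 * l) := ENNReal.ofReal_le_ofReal (by linarith)

/-! ### Functions of the first coordinate on cubes -/

variable {m : ℕ}

theorem measurableSet_set (Q : Cube n) : MeasurableSet Q.set := measurableSet_Icc

theorem volume_set (Q : Cube n) : volume Q.set = ENNReal.ofReal Q.side ^ n := by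
  unfold Cube.set
  rw [Real.volume_Icc_pi]
  simp

theorem volume_set_ne_zero (Q : Cube n) : volume Q.set ≠ 0 := by
  rw [volume_set]
  have := ENNReal.ofReal_pos.2 Q.side_pos
  positivity

theorem volume_set_ne_top (Q : Cube n) : volume Q.set ≠ ∞ := by
  rw [volume_set]
  exact ENNReal.pow_ne_top ENNReal.ofReal_ne_top

theorem slice (Q : Cube (m + 1)) {F : ℝ → ℝ≥0∞} (hF : Measurable F) :
    ∫⁻ x in Q.set, F (x 0) =
      ENNReal.ofReal Q.side ^ m * ∫⁻ t in Ioc (Q.corner 0) (Q.corner 0 + Q.side), F t := by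
  have h1 : (volume : Measure (Fin (m + 1) → ℝ)).restrict Q.set =
      Measure.pi (fun i => (volume : Measure ℝ).restrict
        (Icc (Q.corner i) (Q.corner i + Q.side))) := by
    unfold Cube.set
    rw [← pi_univ_Icc, volume_pi, Measure.restrict_pi_pi]
  have h2 : ∫⁻ x in Q.set, F (x 0) =
      ∫⁻ t, F t ∂(Measure.map (Function.eval (0 : Fin (m + 1)))
        ((volume : Measure (Fin (m + 1) → ℝ)).restrict Q.set)) := by
    rw [lintegral_map hF (measurable_pi_apply 0)]
  rw [h2, h1, Measure.pi_map_eval, lintegral_smul_measure, smul_eq_mul]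
  congr 1
  · rw [Finset.prod_congr rfl (g := fun _ => ENNReal.ofReal Q.side)]
    · rw [Finset.prod_const, Finset.card_erase_of_mem (Finset.mem_univ _), Finset.card_univ,
        Fintype.card_fin, Nat.add_sub_cancel]
    · intro i _
      simp
  · rw [setLIntegral_congr Ioc_ae_eq_Icc]

theorem slice_mean (Q : Cube (m + 1)) {F : ℝ → ℝ≥0∞} (hF : Measurable F) :
    (volume Q.set)⁻¹ * ∫⁻ x in Q.set, F (x 0) =
      (ENNReal.ofReal Q.side)⁻¹ * ∫⁻ t in Ioc (Q.corner 0) (Q.corner 0 + Q.side), F t := by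
  have h0 : ENNReal.ofReal Q.side ^ m ≠ 0 := by
    have := ENNReal.ofReal_pos.2 Q.side_pos
    positivity
  have h1 : ENNReal.ofReal Q.side ^ m ≠ ∞ := ENNReal.pow_ne_top ENNReal.ofReal_ne_top
  rw [slice Q hF, volume_set, pow_succ, ENNReal.mul_inv (Or.inl h0) (Or.inl h1), mul_assoc,
    ← mul_assoc, ← mul_assoc]
  congr 1
  rw [mul_assoc, mul_comm _ (ENNReal.ofReal Q.side ^ m), ← mul_assoc,
    ENNReal.inv_mul_cancel h0 h1, one_mul]

/-- the measures defining the spaces `X_Q` -/
noncomputable def nu (Q : Cube (m + 1)) : Measure (Fin (m + 1) → ℝ) :=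
  (volume Q.set)⁻¹ • Q.leb.withDensity fun x => wt (Q.corner 0) Q.side (x 0)

theorem measurable_wt0 (Q : Cube (m + 1)) :
    Measurable fun x : Fin (m + 1) → ℝ => wt (Q.corner 0) Q.side (x 0) :=
  (measurable_wt _ _).comp (measurable_pi_apply 0)

theorem lintegral_nu (Q : Cube (m + 1)) {G : (Fin (m + 1) → ℝ) → ℝ≥0∞}
    (hG : AEMeasurable G Q.leb) : ∫⁻ x, G x ∂(nu Q) =
      (volume Q.set)⁻¹ * ∫⁻ x in Q.set, wt (Q.corner 0) Q.side (x 0) * G x := by
  unfold nu
  rw [lintegral_smul_measure, smul_eq_mul,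
    lintegral_withDensity_eq_lintegral_mul₀ (measurable_wt0 Q).aemeasurable hG]
  rfl

theorem norm_nu (Q : Cube (m + 1)) {g : (Fin (m + 1) → ℝ) → ℝ} (hg : AEMeasurable g Q.leb) :
    eLpNorm g 1 (nu Q) =
      (volume Q.set)⁻¹ * ∫⁻ x in Q.set, wt (Q.corner 0) Q.side (x 0) * ‖g x‖ₑ := by
  rw [eLpNorm_one_eq_lintegral_enorm, lintegral_nu Q hg.enorm]

theorem nu_ac (Q : Cube (m + 1)) : nu Q ≪ Q.leb := by
  unfold nu
  exact (withDensity_absolutelyContinuous _ _).smul_left _

theorem ac_nu (Q : Cube (m + 1)) : Q.leb ≪ nu Q := by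
  unfold nu
  refine (withDensity_absolutelyContinuous' (measurable_wt0 Q).aemeasurable
    (Eventually.of_forall fun x => wt_pos _ _ _)).trans ?_
  refine Measure.absolutelyContinuous_smul ?_
  exact ENNReal.inv_ne_zero.2 (volume_set_ne_top Q)

theorem norm_nu_le (Q : Cube (m + 1)) {g : (Fin (m + 1) → ℝ) → ℝ} (hg : AEMeasurable g Q.leb) :
    eLpNorm g 1 (nu Q) ≤ 2 * L1 Q g := by
  rw [norm_nu Q hg, L1, ← mul_assoc, mul_comm 2 _, mul_assoc,
    ← lintegral_const_mul' 2 _ (by norm_num)]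
  exact mul_le_mul_right (lintegral_mono fun x => mul_le_mul_left (wt_le _ _ _) _) _

theorem L1_one (Q : Cube n) : L1 Q (fun _ => 1) = 1 := by
  unfold L1
  simp only [enorm_one, lintegral_const, one_mul, Measure.restrict_apply MeasurableSet.univ,
    univ_inter]
  exact ENNReal.inv_mul_cancel (volume_set_ne_zero Q) (volume_set_ne_top Q)

instance (Q : Cube (m + 1)) : IsFiniteMeasure (nu Q) := by
  constructor
  have h := norm_nu_le Q (g := fun _ => 1) aemeasurable_const
  rw [L1_one] at h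
  have h2 : eLpNorm (fun _ => (1 : ℝ)) 1 (nu Q) = nu Q univ := by
    rw [eLpNorm_one_eq_lintegral_enorm]
    simp
  rw [h2] at h
  exact h.trans_lt (by norm_num)

/-- the family of spaces -/
noncomputable def fam (m : ℕ) : Family (m + 1) := fun Q g => eLpNorm g 1 (nu Q)

theorem fam_normalized : IsNormalized (fam m) := by
  refine ⟨1 / 2, 2, by norm_num, fun Q => ⟨?_, ?_⟩⟩
  · unfold fam
    rw [norm_nu Q aemeasurable_const]
    simp only [enorm_one, mul_one]
    rw [slice_mean Q (measurable_wt _ _)]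
    calc ((1 / 2 : ℝ≥0) : ℝ≥0∞) = (ENNReal.ofReal Q.side)⁻¹ * ENNReal.ofReal (Q.side / 2) := by
          rw [← ENNReal.ofReal_inv_of_pos Q.side_pos, ← ENNReal.ofReal_mul
            (inv_nonneg.2 Q.side_pos.le)]
          have h1 : Q.side⁻¹ * (Q.side / 2) = ((1 / 2 : ℝ≥0) : ℝ) := by
            have := Q.side_pos.ne'
            push_cast
            field_simp
          rw [h1, ENNReal.ofReal_coe_nnreal]
      _ ≤ _ := by
          gcongr
          exact le_lintegral_wt _ Q.side_pos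
  · refine (norm_nu_le Q aemeasurable_const).trans ?_
    rw [L1_one]
    simp

/-- the function -/
noncomputable def ff (m : ℕ) : (Fin (m + 1) → ℝ) → ℝ := fun x => saw (x 0)

theorem measurable_ff : Measurable (ff m) := measurable_saw.comp (measurable_pi_apply 0)

theorem bmoStar_ff : bmoStarX (fam m) (ff m) ≤ 5 := by
  refine iSup_le fun Q => ?_
  obtain ⟨c, hc⟩ := exists_lintegral_le (Q.corner 0) Q.side_pos
  refine (iInf_le _ c).trans ?_
  unfold fam
  rw [norm_nu Q ((measurable_ff.sub_const c).aemeasurable)]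
  unfold ff
  have hm : Measurable fun t => wt (Q.corner 0) Q.side t * ‖saw t - c‖ₑ :=
    (measurable_wt _ _).mul (measurable_saw.sub_const c).enorm
  rw [slice_mean Q hm]
  calc (ENNReal.ofReal Q.side)⁻¹ *
        ∫⁻ t in Ioc (Q.corner 0) (Q.corner 0 + Q.side), wt (Q.corner 0) Q.side t * ‖saw t - c‖ₑ
      ≤ (ENNReal.ofReal Q.side)⁻¹ * ENNReal.ofReal (5 * Q.side) := by gcongr
    _ = 5 := by
        rw [mul_comm 5 Q.side, ENNReal.ofReal_mul Q.side_pos.le, ← mul_assoc,
          ENNReal.inv_mul_cancel (ENNReal.ofReal_pos.2 Q.side_pos).ne' ENNReal.ofReal_ne_top,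
          one_mul]
        simp

theorem saw_abs_le (t : ℝ) : |saw t| ≤ |t| + 1 := by
  unfold saw
  rw [abs_of_nonneg (le_max_left _ _)]
  refine max_le (by positivity) ((min_le_left _ _).trans ?_)
  have h1 := Int.floor_le (t / 2)
  have h2 := le_abs_self t
  linarith [abs_nonneg t]

theorem locallyIntegrable_ff : LocallyIntegrable (ff m) := by
  rw [locallyIntegrable_iff]
  intro K hK
  obtain ⟨R, hR⟩ := hK.isBounded.exists_norm_le
  refine Measure.integrableOn_of_bounded (M := R + 1) hK.measure_lt_top.ne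
    measurable_ff.aestronglyMeasurable ?_
  filter_upwards [ae_restrict_mem hK.measurableSet] with x hx
  unfold ff
  rw [Real.norm_eq_abs]
  refine (saw_abs_le _).trans ?_
  have h1 : |x 0| ≤ ‖x‖ := by
    rw [← Real.norm_eq_abs]
    exact norm_le_pi_norm x 0
  linarith [hR x hx]

/-- the cubes on which the oscillation is large -/
noncomputable def QQ (m k : ℕ) : Cube (m + 1) where
  corner := fun _ => 2 * ((k : ℝ) + 1) - Real.exp (-((k : ℝ) + 1))
  side := 2 * Real.exp (-((k : ℝ) + 1))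
  side_pos := by positivity

theorem osc_ge (m k : ℕ) (c : ℝ) : ENNReal.ofReal (((k : ℝ) + 1) / 2) ≤
    L1 (QQ m k) (fun x => ff m x - c) := by
  unfold L1 ff
  have hm : Measurable fun t => ‖saw t - c‖ₑ := (measurable_saw.sub_const c).enorm
  rw [slice_mean (QQ m k) hm]
  set e := Real.exp (-((k : ℝ) + 1)) with he
  have he0 : 0 < e := Real.exp_pos _
  have he1 : e ≤ 1 := by
    rw [he, Real.exp_le_one_iff]
    linarith [(Nat.cast_nonneg k : (0 : ℝ) ≤ k)]
  have hcorner : (QQ m k).corner 0 = 2 * ((k : ℝ) + 1) - e := rfl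
  have hside : (QQ m k).side = 2 * e := rfl
  rw [hcorner, hside]
  have hleft : ∀ t, 2 * ((k : ℝ) + 1) - e < t → t < 2 * ((k : ℝ) + 1) → saw t = 0 := by
    intro t h1 h2
    rw [saw_eq (k := (k : ℤ)) (by push_cast; linarith) (by push_cast; linarith)]
    exact peak_eq_zero (Or.inr (by push_cast; linarith))
  have hright : ∀ t, 2 * ((k : ℝ) + 1) < t → t < 2 * ((k : ℝ) + 1) + e → saw t = (k : ℝ) + 1 := by
    intro t h1 h2
    rw [saw_eq (k := (k : ℤ) + 1) (by push_cast; linarith) (by push_cast; linarith)]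
    rw [peak_eq (by omega) (by push_cast; linarith) (by push_cast; linarith)]
    push_cast
    ring
  have hL : ENNReal.ofReal e * ENNReal.ofReal |c| ≤
      ∫⁻ t in Ioo (2 * ((k : ℝ) + 1) - e) (2 * ((k : ℝ) + 1)), ‖saw t - c‖ₑ := by
    have : ∫⁻ t in Ioo (2 * ((k : ℝ) + 1) - e) (2 * ((k : ℝ) + 1)), ‖saw t - c‖ₑ =
        ∫⁻ t in Ioo (2 * ((k : ℝ) + 1) - e) (2 * ((k : ℝ) + 1)), ENNReal.ofReal |c| := by
      refine setLIntegral_congr_fun measurableSet_Ioo fun t ht => ?_
      simp only [hleft t ht.1 ht.2, zero_sub, enorm_neg]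
      rw [← ofReal_norm, Real.norm_eq_abs]
    rw [this, setLIntegral_const, Real.volume_Ioo, mul_comm]
    gcongr
    linarith
  have hR : ENNReal.ofReal e * ENNReal.ofReal |(k : ℝ) + 1 - c| ≤
      ∫⁻ t in Ioo (2 * ((k : ℝ) + 1)) (2 * ((k : ℝ) + 1) + e), ‖saw t - c‖ₑ := by
    have : ∫⁻ t in Ioo (2 * ((k : ℝ) + 1)) (2 * ((k : ℝ) + 1) + e), ‖saw t - c‖ₑ =
        ∫⁻ t in Ioo (2 * ((k : ℝ) + 1)) (2 * ((k : ℝ) + 1) + e),
          ENNReal.ofReal |(k : ℝ) + 1 - c| := by
      refine setLIntegral_congr_fun measurableSet_Ioo fun t ht => ?_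
      simp only [hright t ht.1 ht.2]
      rw [← ofReal_norm, Real.norm_eq_abs]
    rw [this, setLIntegral_const, Real.volume_Ioo, mul_comm]
    gcongr
    linarith
  have hsum : ENNReal.ofReal e * ENNReal.ofReal ((k : ℝ) + 1) ≤
      ∫⁻ t in Ioc (2 * ((k : ℝ) + 1) - e) (2 * ((k : ℝ) + 1) - e + 2 * e), ‖saw t - c‖ₑ := by
    calc ENNReal.ofReal e * ENNReal.ofReal ((k : ℝ) + 1)
        ≤ ENNReal.ofReal e * ENNReal.ofReal |c| +
            ENNReal.ofReal e * ENNReal.ofReal |(k : ℝ) + 1 - c| := by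
          rw [← mul_add, ← ENNReal.ofReal_add (abs_nonneg _) (abs_nonneg _)]
          have h1 := le_abs_self c
          have h2 := le_abs_self ((k : ℝ) + 1 - c)
          exact mul_le_mul_right (ENNReal.ofReal_le_ofReal (by linarith)) _
      _ ≤ _ := add_le_add hL hR
      _ = ∫⁻ t in Ioo (2 * ((k : ℝ) + 1) - e) (2 * ((k : ℝ) + 1)) ∪
            Ioo (2 * ((k : ℝ) + 1)) (2 * ((k : ℝ) + 1) + e), ‖saw t - c‖ₑ := by
          rw [lintegral_union measurableSet_Ioo]
          rw [Set.disjoint_left]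
          intro t h1 h2
          exact absurd h1.2 (not_lt.2 h2.1.le)
      _ ≤ _ := by
          refine lintegral_mono_set ?_
          rintro t (h | h)
          · exact ⟨h.1, by linarith [h.2]⟩
          · exact ⟨by linarith [h.1], by linarith [h.2]⟩
  calc ENNReal.ofReal (((k : ℝ) + 1) / 2)
      = (ENNReal.ofReal (2 * e))⁻¹ * (ENNReal.ofReal e * ENNReal.ofReal ((k : ℝ) + 1)) := by
        rw [← ENNReal.ofReal_mul he0.le, ← ENNReal.ofReal_inv_of_pos (by positivity),
          ← ENNReal.ofReal_mul (by positivity)]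
        congr 1
        field_simp
    _ ≤ _ := by gcongr

theorem bmo_ff : bmoX L1 (ff m) = ∞ := by
  rw [eq_top_iff]
  refine ENNReal.le_of_forall_nnreal_lt fun r _ => ?_
  obtain ⟨k, hk⟩ := exists_nat_gt (2 * (r : ℝ))
  refine le_trans ?_ ((osc_ge m k ((QQ m k).mean (ff m))).trans
    (le_iSup (fun Q : Cube (m + 1) => L1 Q (fun x => ff m x - Q.mean (ff m))) (QQ m k)))
  rw [← ENNReal.ofReal_coe_nnreal]
  apply ENNReal.ofReal_le_ofReal
  linarith

/-- In every dimension `n ≥ 1` there is a normalized family `X = {X_Q}` of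
quasi-Banach function spaces over the cubes of `ℝ^n` such that `BMO` embeds into `BMO_X`, and
`BMO*_X` does not embed into `BMO`; there is even a locally integrable function in `BMO*_X` which
is not in `BMO`. -/
theorem main (n : ℕ) (hn : 1 ≤ n) :
    ∃ X : Family n, (∀ Q, IsQuasiBanachFunctionNorm Q (X Q)) ∧ IsNormalized X ∧
      Embeds (BMO n) (BMOX X) (bmoX L1) (bmoX X) ∧
      ¬ Embeds (BMOStarX X) (BMO n) (bmoStarX X) (bmoX L1) ∧
      ∃ f, f ∈ BMOStarX X ∧ LocallyIntegrable f ∧ f ∉ BMO n := by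
  obtain ⟨m, rfl⟩ : ∃ m, n = m + 1 := ⟨n - 1, by omega⟩
  have hf : ff m ∈ BMOStarX (fam m) :=
    ⟨measurable_ff.aemeasurable, bmoStar_ff.trans_lt (by norm_num)⟩
  have hf2 : ff m ∉ BMO (m + 1) := fun h => absurd bmo_ff h.2.ne
  have hle : ∀ f : (Fin (m + 1) → ℝ) → ℝ, LocallyIntegrable f →
      bmoX (fam m) f ≤ 2 * bmoX L1 f := by
    intro f hf
    refine iSup_le fun Q => ?_
    have hm : AEMeasurable (fun x => f x - Q.mean f) Q.leb :=
      (hf.aestronglyMeasurable.aemeasurable.mono_measure Measure.restrict_le_self).sub_const _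
    refine (norm_nu_le Q hm).trans ?_
    gcongr
    exact le_iSup (fun Q : Cube (m + 1) => L1 Q (fun x => f x - Q.mean f)) Q
  refine ⟨fam m, fun Q => isQBFN_of (nu_ac Q) (ac_nu Q), fam_normalized,
    ⟨fun f hf => ⟨hf.1, (hle f hf.1).trans_lt (ENNReal.mul_lt_top (by norm_num) hf.2)⟩,
      2, fun f hf => hle f hf.1⟩, fun h => hf2 (h.1 hf), ff m, hf, locallyIntegrable_ff, hf2⟩

end Pool.Agent.R884.BMOStar
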